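import Pool.Agent.Helper87.Irr.GoalsA

namespace Irr87

open Irr37

theorem eL : EL := by
  intro p s z B S V hIn hB hS hS' hV
  have hz : z ≤ V.card := (hIn z le_rfl).trans (Finset.card_filter_le _ _)
  by_contra hcon
  push Not at hcon
  obtain ⟨lo, hlo⟩ : ∃ lo, lo = p - S := ⟨_, rfl⟩
  have hX : ∀ x ∈ Finset.Ioc lo p, S + x ∈ V ∨ B + x ∈ V := by
    intro x hx
    rw [Finset.mem_Ioc] at hx
    by_contra h
    push Not at h
    have := hcon x (by omega) hx.2 (by omega) h.1 (by omega) h.2
    omega
  set V1 := V.filter (fun w => S + lo < w ∧ w ≤ S + p) with hV1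
  set V2 := V.filter (fun w => B + lo < w ∧ w ≤ B + p) with hV2
  set V3 := V.filter (fun w => B + p < w) with hV3
  have h1 : (Finset.Ioc lo p).card ≤ V1.card + V2.card := by
    have hsub : Finset.Ioc lo p ⊆ V1.image (fun w => w - S) ∪ V2.image (fun w => w - B) := by
      intro x hx
      rw [Finset.mem_union, Finset.mem_image, Finset.mem_image]
      have hx' := Finset.mem_Ioc.1 hx
      rcases hX x hx with h | h
      · exact Or.inl ⟨S + x, Finset.mem_filter.2 ⟨h, by omega, by omega⟩, by omega⟩
      · exact Or.inr ⟨B + x, Finset.mem_filter.2 ⟨h, by omega, by omega⟩, by omega⟩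
    exact (Finset.card_le_card hsub).trans ((Finset.card_union_le _ _).trans
      (add_le_add Finset.card_image_le Finset.card_image_le))
  have h2 : (V1 ∩ V2).card ≤ S + p - (B + lo) := by
    have hsub : V1 ∩ V2 ⊆ Finset.Ioc (B + lo) (S + p) := by
      intro w hw
      rw [Finset.mem_inter, hV1, hV2, Finset.mem_filter, Finset.mem_filter] at hw
      exact Finset.mem_Ioc.2 ⟨hw.2.2.1, hw.1.2.2⟩
    have := Finset.card_le_card hsub
    rwa [Nat.card_Ioc] at this
  have h3 : 2 * p - B ≤ V3.card := by
    by_cases hBp : B ≤ 2 * p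
    · refine (hIn (2 * p - B) (by omega)).trans (Finset.card_le_card ?_)
      intro w hw
      rw [Finset.mem_filter] at hw
      exact Finset.mem_filter.2 ⟨hw.1, by omega⟩
    · omega
  have h4 : (V1 ∪ V2).card + V3.card ≤ V.card := by
    rw [← Finset.card_union_of_disjoint]
    · refine Finset.card_le_card ?_
      intro w hw
      simp only [Finset.mem_union, hV1, hV2, hV3, Finset.mem_filter] at hw
      tauto
    · rw [Finset.disjoint_left]
      intro w hw hw'
      simp only [Finset.mem_union, hV1, hV2, hV3, Finset.mem_filter] at hw hw'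
      omega
  have h5 := Finset.card_union_add_card_inter V1 V2
  rw [Nat.card_Ioc] at h1
  omega

end Irr87
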