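import Pool.Agent.Helper87.Irr.GoalsA

namespace Irr87

open Irr37

private theorem two' (a b p : ℕ) (h : a ≠ b) (ha : 1 ≤ a ∧ a ≤ p) (hb : 1 ≤ b ∧ b ≤ p) :
    ({a, b} : Finset ℕ) ⊆ Finset.Icc 1 p ∧ ({a, b} : Finset ℕ).card = 2 ∧
      ({a, b} : Finset ℕ).sum id = a + b := by
  refine ⟨?_, Finset.card_pair h, Finset.sum_pair h⟩
  intro x hx
  rw [Finset.mem_insert, Finset.mem_singleton] at hx
  rw [Finset.mem_Icc]
  omega

private theorem three' (a b c p : ℕ) (h : a ≠ b) (h' : a ≠ c) (h'' : b ≠ c)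
    (ha : 1 ≤ a ∧ a ≤ p) (hb : 1 ≤ b ∧ b ≤ p) (hc : 1 ≤ c ∧ c ≤ p) :
    ({a, b, c} : Finset ℕ) ⊆ Finset.Icc 1 p ∧ ({a, b, c} : Finset ℕ).card = 3 ∧
      ({a, b, c} : Finset ℕ).sum id = a + b + c := by
  refine ⟨?_, Finset.card_eq_three.2 ⟨a, b, c, h, h', h'', rfl⟩, ?_⟩
  · intro x hx
    rw [Finset.mem_insert, Finset.mem_insert, Finset.mem_singleton] at hx
    rw [Finset.mem_Icc]
    omega
  · rw [Finset.sum_insert, Finset.sum_pair h'']
    · simp only [id]; omega
    · rw [Finset.mem_insert, Finset.mem_singleton]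
      omega

theorem labStart : LabStart := by
  intro p hp
  have hc : (Finset.Icc 1 p).card = p := by rw [Nat.card_Icc]; omega
  constructor
  · intro _
    exact ⟨p, Finset.mem_Icc.2 (by omega), by omega⟩
  · intro _
    obtain ⟨h1, h2, h3⟩ := two' 1 (p - 1) p (by omega) (by omega) (by omega)
    exact ⟨_, h1, h2, by omega⟩
  · intro _
    exact ⟨p, Finset.mem_Icc.2 (by omega), p - 1, Finset.mem_Icc.2 (by omega), by omega, by omega,
      by omega⟩
  · intro _
    obtain ⟨h1, h2, h3⟩ := two' 1 (p - 1) p (by omega) (by omega) (by omega)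
    refine ⟨_, h1, h2, by omega, p, Finset.mem_Icc.2 (by omega), ?_, by omega⟩
    rw [Finset.mem_insert, Finset.mem_singleton]
    omega
  · intro _ h5
    obtain ⟨h1, h2, h3⟩ := two' 1 (p - 1) p (by omega) (by omega) (by omega)
    obtain ⟨h1', h2', h3'⟩ := two' 2 (p - 2) p (by omega) (by omega) (by omega)
    refine ⟨_, h1, _, h1', ?_, h2, by omega, h2', by omega, by omega⟩
    rw [Finset.disjoint_left]
    intro x hx hx'
    rw [Finset.mem_insert, Finset.mem_singleton] at hx hx'
    omega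
  · intro _
    obtain ⟨h1, h2, h3⟩ := three' p (p - 1) (p - 2) p (by omega) (by omega) (by omega)
      (by omega) (by omega) (by omega)
    exact ⟨_, h1, h2, by omega⟩
  · intro h4
    rw [hc] at h4
    obtain ⟨h1, h2, h3⟩ := three' (p - 1) (p - 2) (p - 3) p (by omega) (by omega) (by omega)
      (by omega) (by omega) (by omega)
    refine ⟨p, Finset.mem_Icc.2 (by omega), by omega, _, h1, ?_, h2, by omega⟩
    rw [Finset.mem_insert, Finset.mem_insert, Finset.mem_singleton]
    omega
  · intro h5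
    rw [hc] at h5
    obtain ⟨h1, h2, h3⟩ := two' 1 (p - 1) p (by omega) (by omega) (by omega)
    obtain ⟨h1', h2', h3'⟩ := three' p (p - 2) (p - 3) p (by omega) (by omega) (by omega)
      (by omega) (by omega) (by omega)
    refine ⟨_, h1, _, h1', ?_, h2, by omega, h2', by omega⟩
    rw [Finset.disjoint_left]
    intro x hx hx'
    rw [Finset.mem_insert, Finset.mem_singleton] at hx
    rw [Finset.mem_insert, Finset.mem_insert, Finset.mem_singleton] at hx'
    omega
  · intro h6
    rw [hc] at h6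
    obtain ⟨h1, h2, h3⟩ := three' p (p - 3) (p - 4) p (by omega) (by omega) (by omega)
      (by omega) (by omega) (by omega)
    obtain ⟨h1', h2', h3'⟩ := three' (p - 1) (p - 2) (p - 5) p (by omega) (by omega) (by omega)
      (by omega) (by omega) (by omega)
    refine ⟨_, h1, _, h1', ?_, h2, by omega, h2', by omega⟩
    rw [Finset.disjoint_left]
    intro x hx hx'
    rw [Finset.mem_insert, Finset.mem_insert, Finset.mem_singleton] at hx hx'
    omega

end Irr87
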